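import Pool.Agent.Helper15.FC.St1

set_option autoImplicit false

/-!
Project FC (MP_16cbc0_nt), module GR0: the base point.
-/

open Polynomial

namespace Pool.Agent.Helper26.FC

open Pool.Agent.Helper15.FC

/-- the reverse of a power, over a domain -/
private theorem rev_pow {F : Type} [Field F] (f : F[X]) (o : ℕ) :
    (f ^ o).reverse = f.reverse ^ o := by
  induction o with
  | zero =>
    rw [pow_zero, pow_zero, ← C_1, Polynomial.reverse_C]
  | succ n ih => rw [pow_succ, Polynomial.reverse_mul_of_domain, ih, pow_succ]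

private theorem cls_pow {F : Type} [Field F] (r : F[X]) (N : ℕ) (f : F[X]) (o : ℕ) :
    cls r N (f ^ o) = cls r N f ^ o := by
  unfold cls
  rw [rev_pow, map_pow, map_pow, Prod.pow_mk]

private theorem cls_one {F : Type} [Field F] (r : F[X]) (N : ℕ) :
    cls r N (1 : F[X]) = 1 := by
  have h := cls_pow r N (1 : F[X]) 0
  rw [pow_zero, pow_zero] at h
  exact h

private theorem mk_isUnit {F : Type} [Field F] {r f : F[X]} (h : IsCoprime f r) :
    IsUnit (AdjoinRoot.mk r f) := by
  obtain ⟨u, v, huv⟩ := h
  refine IsUnit.of_mul_eq_one (AdjoinRoot.mk r u) ?_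
  rw [← map_mul, ← map_one (AdjoinRoot.mk r), AdjoinRoot.mk_eq_mk]
  refine ⟨-v, ?_⟩
  linear_combination huv

private theorem cls_isUnit {F : Type} [Field F] (r : F[X]) (N : ℕ) {f : F[X]} (hf : f.Monic)
    (h : IsCoprime f r) : IsUnit (cls r N f) := by
  unfold cls
  rw [Prod.isUnit_iff]
  refine ⟨mk_isUnit h, ?_⟩
  refine mk_isUnit ?_
  refine IsCoprime.pow_right ?_
  have h0 : f.reverse.coeff 0 = 1 := by
    rw [Polynomial.coeff_zero_reverse]
    exact hf
  have h1 : (X : F[X]) ∣ f.reverse - 1 := by
    rw [Polynomial.X_dvd_iff, Polynomial.coeff_sub, h0, Polynomial.coeff_one_zero, sub_self]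
  obtain ⟨g, hg⟩ := h1
  refine ⟨1, -g, ?_⟩
  linear_combination hg

/-- **GR0** -/
theorem hGR0 (hEXF : StEXF) : StGR0 := by
  intro F _ _ r N hr
  classical
  -- the first field
  have he1 : 1 ≤ r.natDegree + 1 := Nat.le_add_left 1 _
  obtain ⟨K1, iF1, iFt1, iA1, hc1⟩ := hEXF F (r.natDegree + 1) he1
  set e := r.natDegree + 1 with he
  have hq : 2 ≤ Fintype.card F := Fintype.one_lt_card
  have hbig : r.natDegree < Fintype.card K1 := by
    rw [hc1]
    calc r.natDegree < e := Nat.lt_succ_self _
      _ < 2 ^ e := Nat.lt_two_pow_self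
      _ ≤ Fintype.card F ^ e := Nat.pow_le_pow_left hq e
  -- a point that is not a root
  obtain ⟨a1, ha1⟩ : ∃ a1 : K1, aeval a1 r ≠ 0 := by
    by_contra hcon
    push Not at hcon
    have hne : r.map (algebraMap F K1) ≠ 0 := (hr.map _).ne_zero
    have hsub : (Finset.univ : Finset K1) ⊆ (r.map (algebraMap F K1)).roots.toFinset := by
      intro a _
      rw [Multiset.mem_toFinset, Polynomial.mem_roots hne, Polynomial.IsRoot.def,
        Polynomial.eval_map_algebraMap]
      exact hcon a
    have h1 := Finset.card_le_card hsub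
    have h2 := Multiset.toFinset_card_le (r.map (algebraMap F K1)).roots
    have h3 := Polynomial.card_roots' (r.map (algebraMap F K1))
    have h4 : (r.map (algebraMap F K1)).natDegree = r.natDegree := hr.natDegree_map _
    rw [Finset.card_univ] at h1
    omega
  haveI : Module.Finite F K1 := Module.Finite.of_finite
  have hint1 : IsIntegral F a1 := Algebra.IsIntegral.isIntegral a1
  have hm1 : (minpoly F a1).Monic := minpoly.monic hint1
  have hirr : Irreducible (minpoly F a1) := minpoly.irreducible hint1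
  have hcop0 : IsCoprime (minpoly F a1) r := by
    rcases (hirr.coprime_iff_not_dvd (n := r)).symm with h
    exact h.1 (fun hd => ha1 (by
      obtain ⟨g, hg⟩ := hd
      rw [hg, map_mul, minpoly.aeval, zero_mul]))
  set f1 : F[X] := fa (F := F) e a1 with hf1
  have hf1m : f1.Monic := by
    rw [hf1]
    unfold fa
    exact hm1.pow _
  have hf1c : IsCoprime f1 r := by
    rw [hf1]
    unfold fa
    exact hcop0.pow_left
  have hu := cls_isUnit r N hf1m hf1c
  haveI : Finite (AdjoinRoot r) := finite_AR hr
  obtain ⟨u, hu⟩ := hu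
  obtain ⟨o, ho, huo⟩ := (isOfFinOrder_iff_pow_eq_one (x := u)).1 (isOfFinOrder_of_finite u)
  have hclo : cls r N f1 ^ o = 1 := by
    rw [← hu, ← Units.val_pow_eq_pow_val, huo, Units.val_one]
  -- the second field
  obtain ⟨K, iF2, iFt2, iA2, hc2⟩ := hEXF K1 o ho
  letI iA3 : Algebra F K := ((algebraMap K1 K).comp (algebraMap F K1)).toAlgebra
  haveI : IsScalarTower F K1 K := IsScalarTower.of_algebraMap_eq (fun x => rfl)
  refine ⟨e * o, K, iF2, iFt2, iA3, algebraMap K1 K a1, Nat.mul_pos he1 ho, ?_, ?_⟩
  · rw [hc2, hc1, pow_mul]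
  · have hmp : minpoly F (algebraMap K1 K a1) = minpoly F a1 :=
      minpoly.algebraMap_eq (algebraMap K1 K).injective a1
    have hfr : Module.finrank F K1 = e := by
      have h1 := Module.card_eq_pow_finrank (K := F) (V := K1)
      rw [hc1] at h1
      exact (Nat.pow_right_injective hq h1).symm
    have hdv : (minpoly F a1).natDegree ∣ e := by
      rw [← hfr]
      exact minpoly.degree_dvd hint1
    have hd0 : 0 < (minpoly F a1).natDegree := minpoly.natDegree_pos hint1
    have hfa : fa (F := F) (e * o) (algebraMap K1 K a1) = f1 ^ o := by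
      rw [hf1]
      unfold fa
      rw [hmp, ← pow_mul]
      congr 1
      obtain ⟨m, hm⟩ := hdv
      rw [hm, mul_assoc, Nat.mul_div_cancel_left _ hd0, Nat.mul_div_cancel_left _ hd0]
    rw [hfa, cls_pow, hclo, cls_one]

end Pool.Agent.Helper26.FC
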