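import Pool.Agent.Helper15.FC.St3

set_option autoImplicit false

/-!
Project FC (MP_16cbc0_nt), module ACF: the additive characters of F[X] that are trivial on the
multiples of r.
-/

open Polynomial

namespace Pool.Agent.Helper26.FC

open Pool.Agent.Helper15.FC

private theorem ac_norm {F : Type} [Field F] [Fintype F] (ν : AddChar F[X] ℂ) (g : F[X]) :
    ‖ν g‖ = 1 := by
  have h0 : (Fintype.card F) • g = 0 := by
    rw [nsmul_eq_mul]
    have h1 : ((Fintype.card F : ℕ) : F[X]) = C ((Fintype.card F : ℕ) : F) :=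
      (map_natCast (C : F →+* F[X]) (Fintype.card F)).symm
    rw [h1, FiniteField.cast_card_eq_zero, C_0, zero_mul]
  have h2 : ν g ^ Fintype.card F = 1 := by
    rw [← AddChar.map_nsmul_eq_pow, h0, AddChar.map_zero_eq_one]
  exact Complex.norm_eq_one_of_pow_eq_one h2 Fintype.card_ne_zero

private theorem ac_conj {F : Type} [Field F] [Fintype F] (ν : AddChar F[X] ℂ) (g : F[X]) :
    ν (-g) = (starRingEnd ℂ) (ν g) := by
  rw [AddChar.map_neg_eq_inv]
  exact Complex.inv_eq_conj (ac_norm ν g)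

/-- pull back of a character of the quotient -/
private noncomputable def pb {F : Type} [Field F] (r : F[X]) (ψ : AddChar (AdjoinRoot r) ℂ) :
    AddChar F[X] ℂ := ψ.compAddMonoidHom (AdjoinRoot.mk r : F[X] →+ AdjoinRoot r)

private theorem pb_apply {F : Type} [Field F] (r : F[X]) (ψ : AddChar (AdjoinRoot r) ℂ)
    (g : F[X]) : pb r ψ g = ψ (AdjoinRoot.mk r g) := rfl

private theorem pb_inj {F : Type} [Field F] (r : F[X]) : Function.Injective (pb r) :=
  AddChar.compAddMonoidHom_injective_left _ AdjoinRoot.mk_surjective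

private theorem pb_mem {F : Type} [Field F] (r : F[X]) (ψ : AddChar (AdjoinRoot r) ℂ) :
    pb r ψ ∈ AC r := by
  intro g
  rw [pb_apply, map_mul, AdjoinRoot.mk_self, zero_mul, AddChar.map_zero_eq_one]

private theorem ac_congr {F : Type} [Field F] {r : F[X]} {ν : AddChar F[X] ℂ} (h : ν ∈ AC r)
    {x y : F[X]} (hxy : AdjoinRoot.mk r x = AdjoinRoot.mk r y) : ν x = ν y := by
  rw [AdjoinRoot.mk_eq_mk] at hxy
  obtain ⟨g, hg⟩ := hxy
  have h1 : x = r * g + y := by linear_combination hg
  rw [h1, AddChar.map_add_eq_mul, h g, one_mul]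

private theorem mk_inv {F : Type} [Field F] {r : F[X]} (x : AdjoinRoot r) :
    AdjoinRoot.mk r (Function.surjInv (AdjoinRoot.mk_surjective (g := r)) x) = x :=
  Function.surjInv_eq (AdjoinRoot.mk_surjective (g := r)) x

/-- the descended character -/
private noncomputable def ds {F : Type} [Field F] {r : F[X]} {ν : AddChar F[X] ℂ} (h : ν ∈ AC r) :
    AddChar (AdjoinRoot r) ℂ where
  toFun x := ν (Function.surjInv (AdjoinRoot.mk_surjective (g := r)) x)
  map_zero_eq_one' := by
    rw [← AddChar.map_zero_eq_one ν]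
    refine ac_congr h ?_
    rw [mk_inv, map_zero]
  map_add_eq_mul' x y := by
    rw [← AddChar.map_add_eq_mul]
    refine ac_congr h ?_
    rw [mk_inv, map_add, mk_inv, mk_inv]

private theorem pb_ds {F : Type} [Field F] {r : F[X]} {ν : AddChar F[X] ℂ} (h : ν ∈ AC r) :
    pb r (ds h) = ν := by
  ext g
  rw [pb_apply]
  change ν (Function.surjInv (AdjoinRoot.mk_surjective (g := r)) (AdjoinRoot.mk r g)) = ν g
  refine ac_congr h ?_
  rw [mk_inv]

private theorem ac_range {F : Type} [Field F] (r : F[X]) : AC r = Set.range (pb r) := by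
  ext ν
  constructor
  · intro h
    exact ⟨ds h, pb_ds h⟩
  · rintro ⟨ψ, rfl⟩
    exact pb_mem r ψ

private theorem card_ar {F : Type} [Field F] [Fintype F] {r : F[X]} (hr : r.Monic)
    [Fintype (AdjoinRoot r)] : Fintype.card (AdjoinRoot r) = Fintype.card F ^ r.natDegree := by
  have h1 := Module.card_eq_pow_finrank (K := F) (V := AdjoinRoot r)
  have h2 := (AdjoinRoot.powerBasis' hr).finrank
  rw [AdjoinRoot.powerBasis'_dim] at h2
  rw [h1, h2]

/-- **ACF** -/
theorem hACF : StACF := by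
  intro F _ _
  refine ⟨fun ν g => ⟨ac_norm ν g, ac_conj ν g⟩, ?_⟩
  intro r hr
  classical
  haveI : Finite (AdjoinRoot r) := finite_AR hr
  letI : Fintype (AdjoinRoot r) := Fintype.ofFinite _
  have hfin : (AC r).Finite := by
    rw [ac_range]
    exact Set.finite_range _
  have hmem : ∀ ν, ν ∈ ACf r ↔ ν ∈ AC r := by
    intro ν
    unfold ACf
    rw [dif_pos hfin, Set.Finite.mem_toFinset]
  have himg : ACf r = Finset.univ.image (pb r) := by
    ext ν
    rw [hmem, ac_range, Finset.mem_image]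
    constructor
    · rintro ⟨ψ, rfl⟩
      exact ⟨ψ, Finset.mem_univ _, rfl⟩
    · rintro ⟨ψ, -, rfl⟩
      exact ⟨ψ, rfl⟩
  have hcard : Fintype.card (AddChar (AdjoinRoot r) ℂ) = Fintype.card F ^ r.natDegree := by
    rw [AddChar.card_eq, card_ar hr]
  have hsum : ∀ h : F[X], ∑ ν ∈ ACf r, ν h =
      ∑ ψ : AddChar (AdjoinRoot r) ℂ, ψ (AdjoinRoot.mk r h) := by
    intro h
    rw [himg, Finset.sum_image (fun a _ b _ hab => pb_inj r hab)]
    rfl
  refine ⟨hfin, hmem, ?_, ?_, ?_⟩
  · rw [himg, Finset.card_image_of_injective _ (pb_inj r), Finset.card_univ, hcard]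
  · intro h hd
    rw [hsum, AddChar.sum_apply_eq_ite, if_pos, card_ar hr]
    · push_cast
      rfl
    · rwa [AdjoinRoot.mk_eq_zero]
  · intro h hd
    rw [hsum, AddChar.sum_apply_eq_ite, if_neg]
    rwa [AdjoinRoot.mk_eq_zero]

end Pool.Agent.Helper26.FC
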